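import Pool.Agent.Helper12.EK.Defs
import Pool.Agent.Helper38.EK.Rand

/-!
# A random set which hits all large balls
-/

set_option autoImplicit false
set_option linter.unusedSectionVars false

namespace Pool.Agent.Helper12.EK

open Pool.Agent.Helper6.MC

variable {M : Type} [Fintype M] [DecidableEq M]

/-- K5: a random set which hits all large balls: for `z` with a ball of more than `m` points take the smallest one -/
theorem hit_ball (E : M → M → Prop) (q m : ℕ) (hq : 1 ≤ q) (hm : (q - 1) ^ (m + 1) * q ≤ q ^ (m + 1)) :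
    ∃ B : Finset M, q * B.card ≤ 2 * Fintype.card M ∧
      ∀ z ρ, (∀ y ∈ Ball E z ρ, y ∉ B) → (Ball E z ρ).card ≤ m := by
  classical
  obtain ⟨B, hB, h⟩ := Pool.Agent.Helper38.EK.hitting (M := M) (q := q) (B := 1) (L := m + 1) hq
    (fun z => if hz : ∃ ρ, m < (Ball E z ρ).card then {Ball E z (Nat.find hz)} else ∅)
    (fun z => by
      by_cases hz : ∃ ρ, m < (Ball E z ρ).card
      · simp only [dif_pos hz, Finset.card_singleton, le_refl]
      · simp only [dif_neg hz, Finset.card_empty, zero_le])
    (fun z D hD => by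
      by_cases hz : ∃ ρ, m < (Ball E z ρ).card
      · simp only [dif_pos hz, Finset.mem_singleton] at hD
        rw [hD]
        exact Nat.find_spec hz
      · simp only [dif_neg hz, Finset.notMem_empty] at hD)
    (by rw [one_mul, mul_comm]; exact hm)
  refine ⟨B, hB, fun z ρ hz => ?_⟩
  by_contra hlt
  rw [not_le] at hlt
  have hex : ∃ ρ, m < (Ball E z ρ).card := ⟨ρ, hlt⟩
  have hzB : z ∉ B := hz z (mem_Ball.2 ⟨SimpleGraph.Reachable.refl z, by
    rw [SimpleGraph.dist_self]; exact Nat.zero_le _⟩)
  obtain ⟨y, hy, hyB⟩ := h z hzB (Ball E z (Nat.find hex)) (by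
    simp only [dif_pos hex, Finset.mem_singleton])
  have hle : Nat.find hex ≤ ρ := Nat.find_min' hex hlt
  exact hz y (mem_Ball.2 ⟨(mem_Ball.1 hy).1, (mem_Ball.1 hy).2.trans hle⟩) hyB

end Pool.Agent.Helper12.EK
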